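import Pool.Agent.Helper98_CC.Stmts
import Pool.Agent.Helper33_WRA.Formi
import Pool.Agent.Helper83_WRA.Pos

/-!
CC, module OFF: the inner sums outside of the base group vanish modulo `M`.
-/

open scoped BigOperators

noncomputable section

namespace Pool.Agent.Helper98_CC.H55

open Pool.Agent.Helper51_AWC Pool.Agent.Helper79_WRA Pool.Agent.Helper79_WRA.H13
open Pool.Agent.Helper79_WRA.H33

theorem off : OffStmt := by
  classical
  intro ℓ hp M hM hℓ G _ _ hG χ hχ hLD h hh Φ hΦ hI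
  have := Fintype.ofFinite (ConjClasses G)
  have hα : IsChars (triv G (ZMod ℓ)) (fun _ : ZMod ℓ => χ) := isChars_triv.2 fun _ => hχ
  have hmem : h ∈ topSt (Cl ℓ) (triv G (ZMod ℓ)) (fun _ : ZMod ℓ => χ) :=
    (mem_LL (L := Cl ℓ) (β := fun _ : ZMod ℓ => χ) fun _ => hχ).2 fun _ => rfl
  obtain ⟨B, hB⟩ := exists_base (Δ := ZMod ℓ) h
  have hcod : IsIntegral ℤ ((Nat.card G : ℂ) / χ 1) := codeg_int hχ
  have hred : Cong M ((Nat.card G : ℂ) / χ 1) 0 :=
    (H83.red_eq_zero_iff hcod).1 (((H83.pos ℓ M hℓ G hG).1 χ hχ).1 hLD)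
  -- some index is not in the base
  obtain ⟨j, hj⟩ : ∃ j, j ∉ B := by
    by_contra hcon
    push Not at hcon
    obtain ⟨b, -, hu⟩ := hB 0
    have h1 : (0 : ZMod ℓ) = b := hu 0 ⟨hcon 0, MulAction.mem_orbit_self 0⟩
    have h2 : h • (0 : ZMod ℓ) = b :=
      hu _ ⟨hcon _, ⟨⟨h, Subgroup.mem_zpowers h⟩, rfl⟩⟩
    rw [← h1, cl_smul, add_zero] at h2
    exact hh (Multiplicative.toAdd.injective h2)
  have h1 := Sh_eq' hα (isExt_ext hα) hmem hB (fun x a => hΦ x (Wreath.base a))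
  unfold Sh at h1
  have h2 : (∑ᶠ w : ZMod ℓ → G, Φ ⟨w, h⟩ * ex (Cl ℓ) (fun _ => χ) ⟨w, h⟩) /
      ∏ _j : ZMod ℓ, χ 1 = _ := h1
  rw [h2]
  refine Cong.mul_zero_right ?_ (IsIntegral.sum _ fun C _ => (hI _).mul
    (IsIntegral.prod _ fun i _ => omB_integral hα B i _))
  rw [← Finset.mul_prod_erase _ _ (Finset.mem_univ j), if_neg hj, colStab_triv,
    Subgroup.card_top]
  refine Cong.mul_zero_right hred (IsIntegral.prod _ fun i _ => ?_)
  split_ifs
  · exact isIntegral_one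
  · rw [colStab_triv, Subgroup.card_top]
    exact hcod

end Pool.Agent.Helper98_CC.H55
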