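import Pool.Agent.Helper98_CC.Stmts
import Pool.Agent.Helper79_WRA.Final

/-!
CC, module STEP: the properties of the wreath product used in the final argument.
-/

open scoped BigOperators

noncomputable section

namespace Pool.Agent.Helper98_CC.H55

open Pool.Agent.Helper51_AWC Pool.Agent.Helper79_WRA

instance clFaithful (ℓ : ℕ) : FaithfulSMul (Cl ℓ) (ZMod ℓ) where
  eq_of_smul_eq_smul := by
    intro a b h
    have h1 := h 0
    rw [cl_smul, cl_smul, add_zero, add_zero] at h1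
    exact Multiplicative.toAdd.injective h1

/-- a group with a character of positive defect is nontrivial -/
theorem nontrivial_of_largeDefect {ℓ : ℕ} [Fact ℓ.Prime] {M : Ideal (integralClosure ℤ ℂ)}
    {G : Type} [Group G] [Finite G] {χ : G → ℂ} (h : LargeDefect ℓ M χ) : Nontrivial G := by
  obtain ⟨ψ, hψ, -, n, hn, hd⟩ := h
  rw [← Finite.one_lt_card_iff_nontrivial]
  obtain ⟨m, hm, hm'⟩ := irr_one hψ
  have hn0 : 0 < n := by
    rw [hm'] at hn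
    have : m = n := by exact_mod_cast hn
    rw [← this]; exact hm
  have h1 := Nat.le_of_dvd Nat.card_pos hd
  have h2 : 1 < ℓ := (Fact.out : ℓ.Prime).one_lt
  have h3 : 0 < Nat.card (opCore ℓ G) := Nat.card_pos
  calc 1 < ℓ := h2
    _ = ℓ * 1 * 1 := by ring
    _ ≤ ℓ * Nat.card (opCore ℓ G) * n :=
      Nat.mul_le_mul (Nat.mul_le_mul_left _ h3) hn0
    _ ≤ Nat.card G := h1

/-- the Frobenius twist of a block of positive defect -/
theorem twist_asum (ℓ : ℕ) [Fact ℓ.Prime] (M : Ideal (integralClosure ℤ ℂ)) [M.IsMaximal]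
    (hℓ : (ℓ : integralClosure ℤ ℂ) ∈ M) (G : Type) [Group G] [Finite G] (hG : opCore ℓ G = ⊥)
    (χ : G → ℂ) (hχ : χ ∈ Irr G) (hLD : LargeDefect ℓ M χ) :
    ∃ s' : ℤ, asum ℓ M (fun g => labF M χ g ^ ℓ) = (Nat.card G : ℤ) * s' ∧
      (s' = 0 ∨ ∃ χ₂ ∈ Irr G, LargeDefect ℓ M χ₂ ∧ altSum ℓ M χ₂ = s') := by
  classical
  obtain ⟨hp1, hp2, hp3, hp4⟩ := H83.pos ℓ M hℓ G hG
  by_cases h : ∃ χ₂ ∈ Irr G, labF M χ₂ = fun g => labF M χ g ^ ℓ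
  · obtain ⟨χ₂, hχ₂, hlab⟩ := h
    refine ⟨altSum ℓ M χ₂, ?_, Or.inr ⟨χ₂, hχ₂, ?_, rfl⟩⟩
    · rw [← hlab]
      exact H83.labSum ℓ M G hG χ₂ hχ₂
    · by_contra hn
      obtain ⟨g, hg, hg'⟩ := hp4 χ₂ hχ₂ hn
      apply hg'
      rw [hlab]
      show labF M χ g ^ ℓ = 0
      rw [hp3 χ hχ hLD g hg, zero_pow (Fact.out : ℓ.Prime).ne_zero]
  · refine ⟨0, ?_, Or.inl rfl⟩
    rw [mul_zero]
    unfold asum
    apply Finset.sum_eq_zero
    intro d hd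
    have h1 : {a | a ∈ IrrS (stab d) ∧ labF M a = fun g => labF M χ g ^ ℓ} = ∅ := by
      rw [Set.eq_empty_iff_forall_notMem]
      rintro a ⟨ha, hlab⟩
      obtain ⟨hd1, hd2, hd3⟩ := mem_chainsOn.1 hd
      obtain ⟨χ₂, hχ₂, h2⟩ := labelAll ℓ M hℓ G d (fun D hD => (mem_psub.1 (hd1 hD)).2) hd3 a ha
      exact h ⟨χ₂, hχ₂, h2.symm.trans hlab⟩
    rw [h1, Set.ncard_empty]
    simp

theorem step : StepStmt := by
  classical
  intro ℓ hp M hM hℓ G _ _ hG χ hχ hLD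
  refine ⟨twist_asum ℓ M hℓ G hG χ hχ hLD, ?_⟩
  have hnt : Nontrivial G := nontrivial_of_largeDefect hLD
  have hΓ : opCore ℓ (Gam ℓ G) = ⊥ := H45.opCore_wreath ℓ G (ZMod ℓ) (Cl ℓ) hnt hG
  have hLL : LL (Cl ℓ) (fun _ : ZMod ℓ => χ) = ⊤ := by
    rw [eq_top_iff]
    intro h _
    exact (mem_LL (L := Cl ℓ) (β := fun _ : ZMod ℓ => χ) fun _ => hχ).2 fun _ => rfl
  have hlam : (fun _ : Cl ℓ => (1 : ℂ)) ∈ IrrS (LL (Cl ℓ) (fun _ : ZMod ℓ => χ)) := by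
    rw [hLL, mem_IrrS_top]
    have h1 := linear_mem_Irr (G := Cl ℓ) 1
    simpa using h1
  obtain ⟨hc1, -, -⟩ := clsAll G (ZMod ℓ) (Cl ℓ)
  obtain ⟨χ', hχ', hval, -, hdeg⟩ := hc1 (fun _ => χ) (fun _ => hχ) (fun _ => 1) hlam
  refine ⟨χ', ⟨hχ', hval⟩, ?_, hΓ⟩
  have hcod := codeg_wreath χ' (fun _ => χ) (fun _ => 1) hχ' (fun _ => hχ) hlam hdeg
  rw [(H83.pos ℓ M hℓ (Gam ℓ G) hΓ).1 χ' hχ', hcod]
  have hui : IsIntegral ℤ ((Nat.card G : ℂ) / χ 1) := codeg_int hχ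
  have hred : red M ((Nat.card G : ℂ) / χ 1) = 0 := ((H83.pos ℓ M hℓ G hG).1 χ hχ).1 hLD
  have huI : IsIntegral ℤ (uu (fun _ : ZMod ℓ => χ)) := IsIntegral.prod _ fun _ _ => hui
  have h2 : IsIntegral ℤ ((Nat.card (LL (Cl ℓ) (fun _ : ZMod ℓ => χ)) : ℂ) / 1) := by
    rw [div_one]
    exact_mod_cast isIntegral_algebraMap (R := ℤ) (A := ℂ)
      (x := (Nat.card (LL (Cl ℓ) (fun _ : ZMod ℓ => χ)) : ℤ))
  rw [red_mul huI h2]
  have h3 : red M (uu (fun _ : ZMod ℓ => χ)) = 0 := by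
    unfold uu
    rw [red_prod _ _ fun _ _ => hui]
    exact Finset.prod_eq_zero (Finset.mem_univ (0 : ZMod ℓ)) hred
  rw [h3, zero_mul]

end Pool.Agent.Helper98_CC.H55
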